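import Mathlib

set_option autoImplicit false

namespace Pool.Agent.W352.Qp

open Set

/-- nonprincipal ultrafilter on ℕ -/
def NP (W : Ultrafilter ℕ) : Prop := ∀ n : ℕ, ({n} : Set ℕ) ∉ W

/-- p-point -/
def IsP (W : Ultrafilter ℕ) : Prop :=
  NP W ∧ ∀ A : ℕ → Set ℕ, (∀ n, A n ∈ W) → ∃ X ∈ W, ∀ n, (X \ A n).Finite

/-- q-point -/
def IsQ (W : Ultrafilter ℕ) : Prop :=
  NP W ∧ ∀ f : ℕ → ℕ, (∀ m : ℕ, {n : ℕ | f n = m}.Finite) → ∃ X ∈ W, Set.InjOn f X

/-- selective ultrafilter -/
def IsSel (W : Ultrafilter ℕ) : Prop :=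
  NP W ∧ ∀ f : ℕ → ℕ, (∃ X ∈ W, ∃ c : ℕ, ∀ x ∈ X, f x = c) ∨ ∃ X ∈ W, Set.InjOn f X

/-- the Fubini limit of the sequence `Y` along `W`, coded on ℕ by the pairing function -/
noncomputable def lim (W : Ultrafilter ℕ) (Y : ℕ → Ultrafilter ℕ) : Ultrafilter ℕ :=
  W.bind (fun n => (Y n).map (Nat.pair n))

/-- isomorphism of ultrafilters on ℕ -/
def Iso (V V' : Ultrafilter ℕ) : Prop := ∃ e : ℕ ≃ ℕ, V.map e = V'

theorem mem_lim (W : Ultrafilter ℕ) (Y : ℕ → Ultrafilter ℕ) (A : Set ℕ) :
    A ∈ lim W Y ↔ {n | {x | Nat.pair n x ∈ A} ∈ Y n} ∈ W := by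
  unfold lim
  rfl

theorem emp (W : Ultrafilter ℕ) : (∅ : Set ℕ) ∉ W := fun h => Ultrafilter.empty_notMem h

theorem infinite_of_mem {W : Ultrafilter ℕ} (hW : NP W) {A : Set ℕ} (hA : A ∈ W) : A.Infinite := by
  intro hf
  have : ∀ s : Set ℕ, s.Finite → s ∉ W := by
    intro s hs
    induction s, hs using Set.Finite.induction_on with
    | empty => exact emp W
    | @insert a s _ _ ih =>
      intro h
      rw [Set.insert_eq, Ultrafilter.union_mem_iff] at h
      rcases h with h | h
      · exact hW a h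
      · exact ih h
  exact this A hf hA

theorem IsSel.isP {W : Ultrafilter ℕ} (hW : IsSel W) : IsP W := by
  classical
  refine ⟨hW.1, fun A hA => ?_⟩
  let g : ℕ → ℕ := fun x => if h : ∃ n, x ∉ A n then Nat.find h + 1 else 0
  rcases hW.2 g with ⟨X, hX, c, hc⟩ | ⟨X, hX, hinj⟩
  · by_cases h0 : c = 0
    · refine ⟨X, hX, fun n => ?_⟩
      have : X \ A n = ∅ := by
        ext x
        simp only [mem_sdiff, mem_empty_iff_false, iff_false, not_and, not_not]
        intro hx
        by_contra hxn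
        have h1 := hc x hx
        have h2 : ∃ n, x ∉ A n := ⟨n, hxn⟩
        simp only [g, dif_pos h2] at h1
        omega
      rw [this]; exact Set.finite_empty
    · exfalso
      obtain ⟨d, rfl⟩ := Nat.exists_eq_succ_of_ne_zero h0
      have h1 : X ∩ A d = ∅ := by
        ext x
        simp only [mem_inter_iff, mem_empty_iff_false, iff_false, not_and]
        intro hx
        have h1 := hc x hx
        by_cases h2 : ∃ n, x ∉ A n
        · simp only [g, dif_pos h2] at h1
          have h3 : Nat.find h2 = d := by omega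
          have := Nat.find_spec h2
          rw [h3] at this
          exact this
        · simp only [g, dif_neg h2] at h1
          omega
      have h2 := Filter.inter_mem (f := (W : Filter ℕ)) hX (hA d)
      rw [h1] at h2
      exact emp W h2
  · refine ⟨X, hX, fun n => ?_⟩
    have hfin : (g '' (X \ A n)).Finite := by
      apply (Set.finite_Iic (n+1)).subset
      rintro _ ⟨x, ⟨hx, hxn⟩, rfl⟩
      have h2 : ∃ n, x ∉ A n := ⟨n, hxn⟩
      simp only [g, dif_pos h2, mem_Iic, add_le_add_iff_right]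
      exact Nat.find_min' h2 hxn
    exact Set.Finite.of_finite_image hfin (hinj.mono (fun x hx => hx.1))

theorem IsSel.isQ {W : Ultrafilter ℕ} (hW : IsSel W) : IsQ W := by
  refine ⟨hW.1, fun f hf => ?_⟩
  rcases hW.2 f with ⟨X, hX, c, hc⟩ | h
  · exfalso
    exact infinite_of_mem hW.1 hX ((hf c).subset (fun x hx => hc x hx))
  · exact h

theorem lim_NP {W : Ultrafilter ℕ} {Y : ℕ → Ultrafilter ℕ} (hW : NP W) : NP (lim W Y) := by
  intro m hm
  rw [mem_lim] at hm
  have : {n | {x | Nat.pair n x ∈ ({m} : Set ℕ)} ∈ Y n} ⊆ {(Nat.unpair m).1} := by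
    intro n hn
    simp only [mem_ofPred_eq, mem_singleton_iff] at hn ⊢
    by_contra hne
    have : {x | Nat.pair n x = m} = ∅ := by
      ext x
      simp only [mem_ofPred_eq, mem_empty_iff_false, iff_false]
      intro h
      apply hne
      rw [← h, Nat.unpair_pair]
    rw [this] at hn
    exact emp _ hn
  exact hW _ (Filter.mem_of_superset hm this)

/-- A Fubini limit along a nonprincipal ultrafilter of nonprincipal ultrafilters is not selective
(it is not even a p-point). -/
theorem lim_not_sel {W : Ultrafilter ℕ} {Y : ℕ → Ultrafilter ℕ} (hW : NP W) (hY : ∀ n, NP (Y n)) :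
    ¬ IsSel (lim W Y) := by
  rintro ⟨-, h⟩
  rcases h (fun z => (Nat.unpair z).1) with ⟨X, hX, c, hc⟩ | ⟨X, hX, hinj⟩
  · rw [mem_lim] at hX
    have hinf := infinite_of_mem hW hX
    obtain ⟨n, hn, hne⟩ := hinf.exists_notMem_finite (Set.finite_singleton c)
    have h1 := infinite_of_mem (hY n) hn
    obtain ⟨x, hx⟩ := h1.nonempty
    have := hc _ hx
    simp only [Nat.unpair_pair] at this
    exact hne this
  · rw [mem_lim] at hX
    obtain ⟨n, hn⟩ := (infinite_of_mem hW hX).nonempty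
    have h1 := infinite_of_mem (hY n) hn
    obtain ⟨x, hx⟩ := h1.nonempty
    obtain ⟨y, hy, hne⟩ := h1.exists_notMem_finite (Set.finite_singleton x)
    have := hinj hx hy (by simp)
    apply hne
    have h2 := congrArg (fun z => (Nat.unpair z).2) this
    simp only [Nat.unpair_pair] at h2
    exact h2.symm

/-- Main combinatorial step: the limit of q-points whose finite-to-one images are p-points and
pairwise distinct is a q-point. -/
theorem lim_isQ {W : Ultrafilter ℕ} {Y : ℕ → Ultrafilter ℕ} (hW : NP W)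
    (hY : ∀ n, IsSel (Y n))
    (hne : ∀ n m, n ≠ m → ∀ f g : ℕ → ℕ, (∀ k, {x | f x = k}.Finite) → (∀ k, {x | g x = k}.Finite) →
      (Y n).map f ≠ (Y m).map g) : IsQ (lim W Y) := by
  classical
  refine ⟨lim_NP hW, fun F hF => ?_⟩
  -- the sections
  let f : ℕ → ℕ → ℕ := fun n x => F (Nat.pair n x)
  have hf : ∀ n k, {x | f n x = k}.Finite := by
    intro n k
    have h1 : ((Nat.pair n) '' {x | f n x = k}).Finite :=
      (hF k).subset (by rintro _ ⟨x, hx, rfl⟩; exact hx)
    exact Set.Finite.of_finite_image h1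
      (fun x _ y _ h => by simpa using congrArg (fun z => (Nat.unpair z).2) h)
  have hA : ∀ n, ∃ A ∈ Y n, Set.InjOn (f n) A := fun n => (hY n).isQ.2 (f n) (hf n)
  choose A hA hAinj using hA
  -- images
  let Z : ℕ → Ultrafilter ℕ := fun n => (Y n).map (f n)
  have hZne : ∀ n m, n ≠ m → Z n ≠ Z m := fun n m h => hne n m h _ _ (hf n) (hf m)
  have hZNP : ∀ n k, ({k} : Set ℕ) ∉ Z n := by
    intro n k h
    have h' : f n ⁻¹' {k} ∈ Y n := h
    exact infinite_of_mem (hY n).1 h' (hf n k)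
  have hZ : ∀ n, IsP (Z n) := by
    intro n
    refine ⟨hZNP n, fun B hB => ?_⟩
    obtain ⟨X, hX, hX'⟩ := (hY n).isP.2 (fun k => f n ⁻¹' (B k)) (fun k => hB k)
    refine ⟨f n '' X, ?_, fun k => ?_⟩
    · have h0 : f n ⁻¹' (f n '' X) ∈ Y n :=
        Filter.mem_of_superset hX (Set.subset_preimage_image (f n) X)
      exact h0
    · apply ((hX' k).image (f n)).subset
      rintro _ ⟨⟨x, hx, rfl⟩, hxk⟩
      exact ⟨x, ⟨hx, hxk⟩, rfl⟩
  -- separate each pair
  have hsep : ∀ n m, ∃ C : Set ℕ, C ∈ Z n ∧ (n ≠ m → C ∉ Z m) := by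
    intro n m
    by_cases h : n = m
    · exact ⟨univ, Filter.univ_mem, fun h' => absurd h h'⟩
    · by_contra hcon
      push Not at hcon
      apply hZne n m h
      apply Ultrafilter.coe_injective
      apply le_antisymm
      · have : (Z m : Filter ℕ) ≤ Z n := fun C hC => (hcon C hC).2
        exact (Ultrafilter.unique (Z n) this).ge
      · exact fun C hC => (hcon C hC).2
  choose C hC1 hC2 using hsep
  have hD : ∀ n, ∃ D ∈ Z n, ∀ m, m ≠ n → D ∉ Z m := by
    intro n
    obtain ⟨X, hX, hX'⟩ := (hZ n).2 (C n) (hC1 n)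
    refine ⟨X, hX, fun m hm hXm => ?_⟩
    have h1 : C n m ∉ Z m := hC2 n m (fun h => hm h.symm)
    have h2 : (C n m)ᶜ ∈ Z m := Ultrafilter.compl_mem_iff_notMem.2 h1
    have h3 : X ∩ (C n m)ᶜ ∈ Z m := Filter.inter_mem hXm h2
    exact infinite_of_mem (hZ m).1 h3 (hX' m)
  choose D hD1 hD2 using hD
  let B : ℕ → Set ℕ := fun n => D n \ ⋃ m ∈ Finset.range n, D m
  have hB : ∀ n, B n ∈ Z n := by
    intro n
    have : (⋃ m ∈ Finset.range n, D m)ᶜ ∈ Z n := by
      rw [Set.compl_iUnion₂]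
      rw [show (⋂ i ∈ Finset.range n, (D i)ᶜ) = ⋂ i ∈ (↑(Finset.range n) : Set ℕ), (D i)ᶜ from by simp]
      apply (Filter.biInter_mem (Finset.finite_toSet _)).2
      intro i hi
      have hi' : i < n := by simpa using hi
      exact Ultrafilter.compl_mem_iff_notMem.2 (hD2 i n (by omega))
    exact Filter.inter_mem (hD1 n) this
  have hBd : ∀ n m, n < m → Disjoint (B n) (B m) := by
    intro n m h
    rw [Set.disjoint_left]
    rintro x ⟨hx, -⟩ ⟨-, hx2⟩
    apply hx2
    simp only [Finset.mem_range, mem_iUnion, exists_prop]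
    exact ⟨n, h, hx⟩
  have hBd' : ∀ n m x, x ∈ B n → x ∈ B m → n = m := by
    intro n m x hn hm
    rcases lt_trichotomy n m with h | h | h
    · exact absurd hm (Set.disjoint_left.1 (hBd n m h) hn)
    · exact h
    · exact absurd hn (Set.disjoint_left.1 (hBd m n h) hm)
  refine ⟨{z | (Nat.unpair z).2 ∈ A (Nat.unpair z).1 ∧ F z ∈ B (Nat.unpair z).1}, ?_, ?_⟩
  · rw [mem_lim]
    apply Filter.mem_of_superset Filter.univ_mem
    intro n _
    have : A n ∩ f n ⁻¹' (B n) ∈ Y n := Filter.inter_mem (hA n) (hB n)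
    apply Filter.mem_of_superset this
    rintro x ⟨hx1, hx2⟩
    simp only [mem_ofPred_eq, Nat.unpair_pair]
    exact ⟨hx1, hx2⟩
  · intro z hz w hw hzw
    have h1 : (Nat.unpair z).1 = (Nat.unpair w).1 := by
      apply hBd' _ _ (F z) hz.2
      rw [hzw]; exact hw.2
    have h2 : (Nat.unpair z).2 = (Nat.unpair w).2 := by
      apply hAinj (Nat.unpair z).1 hz.1
      · rw [h1]; exact hw.1
      · simp only [f]
        rw [Nat.pair_unpair]
        rw [h1, Nat.pair_unpair]
        exact hzw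
    rw [← Nat.pair_unpair z, ← Nat.pair_unpair w, h1, h2]

end Pool.Agent.W352.Qp
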