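import Pool.Agent.W352.Qp.IsoMap

set_option autoImplicit false

namespace Pool.Agent.W352.Qp

open Set

/-- conditions: sequences of infinite sets -/
def Cnd : Type := {a : ℕ → Set ℕ // ∀ n, (a n).Infinite}

/-- coordinatewise almost inclusion -/
def LE' (a b : Cnd) : Prop := ∀ n, (a.1 n \ b.1 n).Finite

theorem LE'.trans {a b c : Cnd} (h : LE' a b) (h' : LE' b c) : LE' a c := by
  intro n
  apply ((h n).union (h' n)).subset
  rintro x ⟨hx, hxc⟩
  by_cases hb : x ∈ b.1 n
  · right; exact ⟨hb, hxc⟩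
  · left; exact ⟨hx, hb⟩

theorem LE'.refl (a : Cnd) : LE' a a := by
  intro n; simp

abbrev Idx : Type := (ℕ → ℕ) × (ℕ → ℕ) × ℕ × ℕ

def Dns (j : Idx) (a : Cnd) : Prop :=
  ((∃ c, ∀ x ∈ a.1 j.2.2.1, j.1 x = c) ∨ InjOn j.1 (a.1 j.2.2.1)) ∧
  (j.2.2.1 ≠ j.2.2.2 → (∀ k, {x | j.1 x = k}.Finite) → (∀ k, {x | j.2.1 x = k}.Finite) →
    Disjoint (j.1 '' a.1 j.2.2.1) (j.2.1 '' a.1 j.2.2.2))

theorem exists_hom (f : ℕ → ℕ) (A : Set ℕ) (hA : A.Infinite) :
    ∃ B ⊆ A, B.Infinite ∧ ((∃ c, ∀ x ∈ B, f x = c) ∨ InjOn f B) := by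
  classical
  by_cases h : (f '' A).Finite
  · have : ∃ c ∈ f '' A, (A ∩ f ⁻¹' {c}).Infinite := by
      by_contra hcon
      push Not at hcon
      apply hA
      have h1 : A ⊆ ⋃ c ∈ f '' A, (A ∩ f ⁻¹' {c}) := by
        intro x hx
        simp only [mem_iUnion]
        exact ⟨f x, ⟨x, hx, rfl⟩, hx, rfl⟩
      apply Set.Finite.subset _ h1
      apply Set.Finite.biUnion h
      intro c hc
      exact hcon c hc
    obtain ⟨c, -, hc⟩ := this
    exact ⟨_, Set.inter_subset_left, hc, Or.inl ⟨c, fun x hx => hx.2⟩⟩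
  · obtain ⟨B, hBA, hB⟩ := (Set.surjOn_image f A).exists_bijOn_subset
    refine ⟨B, hBA, ?_, Or.inr hB.injOn⟩
    intro hfin
    apply h
    rw [← hB.image_eq]
    exact hfin.image f

theorem exists_disj (f g : ℕ → ℕ) (A B : Set ℕ) (hA : A.Infinite) (hB : B.Infinite)
    (hf : ∀ k, {x | f x = k}.Finite) (hg : ∀ k, {x | g x = k}.Finite) :
    ∃ A' ⊆ A, ∃ B' ⊆ B, A'.Infinite ∧ B'.Infinite ∧ Disjoint (f '' A') (g '' B') := by
  classical
  have im : ∀ (h : ℕ → ℕ) (C : Set ℕ), C.Infinite → (∀ k, {x | h x = k}.Finite) →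
      (h '' C).Infinite := by
    intro h C hC hh hfin
    apply hC
    apply Set.Finite.subset (Set.Finite.biUnion hfin (fun k _ => hh k))
    intro x hx
    simp only [mem_iUnion]
    exact ⟨h x, ⟨x, hx, rfl⟩, rfl⟩
  have hfA := im f A hA hf
  have hgB := im g B hB hg
  -- pull back lemma
  have pb : ∀ (h : ℕ → ℕ) (C Q : Set ℕ), Q ⊆ h '' C → Q.Infinite → (C ∩ h ⁻¹' Q).Infinite := by
    intro h C Q hQ hQi hfin
    apply hQi
    apply (hfin.image h).subset
    intro y hy
    obtain ⟨x, hx, rfl⟩ := hQ hy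
    exact ⟨x, ⟨hx, hy⟩, rfl⟩
  by_cases hdiff : ((f '' A) \ (g '' B)).Infinite
  · refine ⟨A ∩ f ⁻¹' ((f '' A) \ (g '' B)), Set.inter_subset_left, B, subset_rfl,
      pb f A _ Set.sdiff_subset hdiff, hB, ?_⟩
    rw [Set.disjoint_left]
    rintro _ ⟨x, hx, rfl⟩ h2
    exact hx.2.2 h2
  · -- the intersection is infinite; split it into two infinite pieces
    have hint : ((f '' A) ∩ (g '' B)).Infinite := by
      intro hfin
      apply hfA
      have : f '' A ⊆ ((f '' A) ∩ (g '' B)) ∪ ((f '' A) \ (g '' B)) := by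
        rw [Set.inter_union_sdiff]
      exact (hfin.union (Set.not_infinite.1 hdiff)).subset this
    set I := (f '' A) ∩ (g '' B) with hI
    let q : ℕ → ℕ := Nat.nth (fun x => x ∈ I)
    have hq : ∀ n, q n ∈ I := fun n => Nat.nth_mem_of_infinite (p := fun x => x ∈ I) hint n
    have hqi : Function.Injective q := Nat.nth_injective (p := fun x => x ∈ I) hint
    let Q1 : Set ℕ := range (fun n => q (2 * n))
    let Q2 : Set ℕ := range (fun n => q (2 * n + 1))
    have hQ1 : Q1.Infinite := Set.infinite_range_of_injective (by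
      intro a b hab
      have := hqi hab
      omega)
    have hQ2 : Q2.Infinite := Set.infinite_range_of_injective (by
      intro a b hab
      have := hqi hab
      omega)
    have hQ1s : Q1 ⊆ f '' A := by rintro _ ⟨n, rfl⟩; exact (hq _).1
    have hQ2s : Q2 ⊆ g '' B := by rintro _ ⟨n, rfl⟩; exact (hq _).2
    refine ⟨A ∩ f ⁻¹' Q1, Set.inter_subset_left, B ∩ g ⁻¹' Q2, Set.inter_subset_left,
      pb f A Q1 hQ1s hQ1, pb g B Q2 hQ2s hQ2, ?_⟩
    rw [Set.disjoint_left]
    rintro _ ⟨x, hx, rfl⟩ ⟨y, hy, hxy⟩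
    obtain ⟨n1, hn1⟩ := hx.2
    obtain ⟨n2, hn2⟩ := hy.2
    have h3 : q (2 * n1) = q (2 * n2 + 1) := by
      simp only at hn1 hn2
      rw [hn1, hn2, hxy]
    have := hqi h3
    omega

theorem dense (j : Idx) (b : Cnd) : ∃ a : Cnd, Dns j a ∧ LE' a b := by
  classical
  obtain ⟨f, g, n, m⟩ := j
  by_cases hnm : n ≠ m ∧ (∀ k, {x | f x = k}.Finite) ∧ (∀ k, {x | g x = k}.Finite)
  · obtain ⟨hnm, hf, hg⟩ := hnm
    obtain ⟨A', hA', B', hB', hAi, hBi, hd⟩ := exists_disj f g (b.1 n) (b.1 m) (b.2 n) (b.2 m) hf hg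
    obtain ⟨A2, hA2, hA2i, hA2h⟩ := exists_hom f A' hAi
    refine ⟨⟨fun k => if k = n then A2 else if k = m then B' else b.1 k, ?_⟩, ⟨?_, ?_⟩, ?_⟩
    · intro k
      dsimp only
      split_ifs
      · exact hA2i
      · exact hBi
      · exact b.2 k
    · simpa using hA2h
    · intro _ _ _
      simp only [↓reduceIte, Ne.symm hnm]
      exact hd.mono_left (Set.image_mono hA2)
    · intro k
      have hsub : (if k = n then A2 else if k = m then B' else b.1 k) ⊆ b.1 k := by
        split_ifs with h1 h2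
        · rw [h1]; exact hA2.trans hA'
        · rw [h2]; exact hB'
        · exact subset_rfl
      have : ((if k = n then A2 else if k = m then B' else b.1 k) \ b.1 k) = ∅ :=
        Set.sdiff_eq_empty.2 hsub
      dsimp only
      rw [this]
      exact Set.finite_empty
  · obtain ⟨A2, hA2, hA2i, hA2h⟩ := exists_hom f (b.1 n) (b.2 n)
    refine ⟨⟨fun k => if k = n then A2 else b.1 k, ?_⟩, ⟨?_, ?_⟩, ?_⟩
    · intro k
      dsimp only
      split_ifs
      · exact hA2i
      · exact b.2 k
    · simpa using hA2h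
    · intro h1 h2 h3
      exact absurd ⟨h1, h2, h3⟩ hnm
    · intro k
      have hsub : (if k = n then A2 else b.1 k) ⊆ b.1 k := by
        split_ifs with h1
        · rw [h1]; exact hA2
        · exact subset_rfl
      have : ((if k = n then A2 else b.1 k) \ b.1 k) = ∅ :=
        Set.sdiff_eq_empty.2 hsub
      dsimp only
      rw [this]
      exact Set.finite_empty

theorem pseudo (C : ℕ → Set ℕ) (hC : ∀ k, (⋂ l ∈ Finset.range (k+1), C l).Infinite) :
    ∃ X : Set ℕ, X.Infinite ∧ ∀ k, (X \ C k).Finite := by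
  have h1 : ∀ k N, ∃ x, x ∈ (⋂ l ∈ Finset.range (k+1), C l) ∧ N < x := fun k N => by
    obtain ⟨x, hx, hN⟩ := (hC k).exists_gt N
    exact ⟨x, hx, hN⟩
  choose F hF1 hF2 using h1
  let x : ℕ → ℕ := fun k => Nat.rec (F 0 0) (fun k v => F (k+1) v) k
  have hx0 : x 0 = F 0 0 := rfl
  have hxs : ∀ k, x (k+1) = F (k+1) (x k) := fun k => rfl
  have hmem : ∀ k, x k ∈ (⋂ l ∈ Finset.range (k+1), C l) := by
    intro k
    cases k with
    | zero => exact hF1 0 0
    | succ k => rw [hxs]; exact hF1 (k+1) (x k)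
  have hmono : StrictMono x := strictMono_nat_of_lt_succ (fun k => by rw [hxs]; exact hF2 (k+1) (x k))
  refine ⟨range x, Set.infinite_range_of_injective hmono.injective, fun k => ?_⟩
  apply ((Set.finite_Iio k).image x).subset
  rintro _ ⟨⟨l, rfl⟩, hl⟩
  refine ⟨l, ?_, rfl⟩
  by_contra hkl
  apply hl
  have := hmem l
  simp only [mem_iInter] at this
  apply this k
  simp only [mem_Iio] at hkl
  simp only [Finset.mem_range]
  omega

theorem lower_bound {ι : Type} [Countable ι] (a : ι → Cnd)
    (h : ∀ i j, LE' (a i) (a j) ∨ LE' (a j) (a i)) : ∃ b : Cnd, ∀ i, LE' b (a i) := by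
  classical
  rcases isEmpty_or_nonempty ι with he | hne
  · exact ⟨⟨fun _ => univ, fun _ => Set.infinite_univ⟩, fun i => (he.false i).elim⟩
  · obtain ⟨e, he⟩ := exists_surjective_nat ι
    -- a minimum among the first k+1
    have hmin : ∀ k, ∃ l ≤ k, ∀ l' ≤ k, LE' (a (e l)) (a (e l')) := by
      intro k
      induction k with
      | zero =>
        refine ⟨0, le_rfl, fun l' hl' => ?_⟩
        have : l' = 0 := by omega
        rw [this]; exact LE'.refl _
      | succ k ih =>
        obtain ⟨l, hl, hl'⟩ := ih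
        rcases h (e l) (e (k+1)) with h1 | h1
        · refine ⟨l, by omega, fun l' hl2 => ?_⟩
          by_cases h2 : l' ≤ k
          · exact hl' l' h2
          · have : l' = k+1 := by omega
            rw [this]; exact h1
        · refine ⟨k+1, le_rfl, fun l' hl2 => ?_⟩
          by_cases h2 : l' ≤ k
          · exact h1.trans (hl' l' h2)
          · have : l' = k+1 := by omega
            rw [this]; exact LE'.refl _
    have hC : ∀ n k, (⋂ l ∈ Finset.range (k+1), (a (e l)).1 n).Infinite := by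
      intro n k hfin
      obtain ⟨l, hl, hl'⟩ := hmin k
      apply (a (e l)).2 n
      have : (a (e l)).1 n ⊆ (⋂ l ∈ Finset.range (k+1), (a (e l)).1 n) ∪
          ⋃ l' ∈ Finset.range (k+1), ((a (e l)).1 n \ (a (e l')).1 n) := by
        intro x hx
        by_cases hx' : x ∈ (⋂ l ∈ Finset.range (k+1), (a (e l)).1 n)
        · exact Or.inl hx'
        · right
          simp only [mem_iInter, not_forall] at hx'
          obtain ⟨l', hl2, hl3⟩ := hx'
          simp only [mem_iUnion]
          exact ⟨l', hl2, hx, hl3⟩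
      apply Set.Finite.subset _ this
      apply hfin.union
      apply Set.Finite.biUnion (Finset.finite_toSet _)
      intro l' hl2
      have : l' ≤ k := by
        have : l' < k+1 := by simpa using hl2
        omega
      exact hl' l' this n
    have := fun n => pseudo (fun l => (a (e l)).1 n) (hC n)
    choose X hX1 hX2 using this
    refine ⟨⟨X, hX1⟩, fun i n => ?_⟩
    obtain ⟨k, rfl⟩ := he i
    exact hX2 n k

/-- Under CH there is a generic descending sequence. -/
theorem exists_generic (hCH : Cardinal.continuum.{0} = Cardinal.aleph.{0} 1) :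
    ∃ a : Idx → Cnd, (∀ j, Dns j (a j)) ∧ ∀ i j, LE' (a i) (a j) ∨ LE' (a j) (a i) := by
  classical
  obtain ⟨r, wo, hr⟩ := Cardinal.exists_ord_eq Idx
  have hcard : Cardinal.mk Idx = Cardinal.aleph.{0} 1 := by
    rw [← hCH]
    simp [Idx]
  have hcount : ∀ i : Idx, Countable {j // r j i} := by
    intro i
    have h1 := Cardinal.card_typein_lt (r := r) i hr
    rw [hcard, Ordinal.card_typein, Cardinal.lt_aleph_one_iff] at h1
    exact Cardinal.mk_le_aleph0_iff.1 h1
  have wf : WellFounded r := wo.toIsWellFounded.wf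
  let dflt : Cnd := ⟨fun _ => univ, fun _ => Set.infinite_univ⟩
  let a : Idx → Cnd := wf.fix (fun i prev =>
    if h : ∃ x : Cnd, Dns i x ∧ ∀ j (hj : r j i), LE' x (prev j hj) then Classical.choose h else dflt)
  have ha : ∀ i, a i = if h : ∃ x : Cnd, Dns i x ∧ ∀ j, r j i → LE' x (a j) then
      Classical.choose h else dflt := by
    intro i
    exact wf.fix_eq _ i
  have key : ∀ i, Dns i (a i) ∧ ∀ j, r j i → LE' (a i) (a j) := by
    intro i
    induction i using wf.induction with
    | _ i ih =>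
      have h : ∃ x : Cnd, Dns i x ∧ ∀ j, r j i → LE' x (a j) := by
        have hc := hcount i
        obtain ⟨b, hb⟩ := lower_bound (ι := {j // r j i}) (fun j => a j.1) (by
          rintro ⟨j, hj⟩ ⟨j', hj'⟩
          rcases trichotomous_of r j j' with h1 | h1 | h1
          · exact Or.inr ((ih j' hj').2 j h1)
          · left; dsimp only; rw [h1]; exact LE'.refl _
          · exact Or.inl ((ih j hj).2 j' h1))
        obtain ⟨x, hx1, hx2⟩ := dense i b
        exact ⟨x, hx1, fun j hj => hx2.trans (hb ⟨j, hj⟩)⟩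
      rw [ha i, dif_pos h]
      exact Classical.choose_spec h
  refine ⟨a, fun j => (key j).1, fun i j => ?_⟩
  rcases trichotomous_of r i j with h1 | h1 | h1
  · exact Or.inr ((key j).2 i h1)
  · left; rw [h1]; exact LE'.refl _
  · exact Or.inl ((key i).2 j h1)

/-- the filter generated by the `n`-th coordinates of a descending family -/
def F (a : Idx → Cnd) (h : ∀ i j, LE' (a i) (a j) ∨ LE' (a j) (a i)) (n : ℕ) : Filter ℕ where
  sets := {X | ∃ i, ((a i).1 n \ X).Finite}
  univ_sets := ⟨(id, id, 0, 0), by simp⟩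
  sets_of_superset := by
    rintro X Y ⟨i, hi⟩ hXY
    exact ⟨i, hi.subset (Set.sdiff_subset_sdiff_right hXY)⟩
  inter_sets := by
    rintro X Y ⟨i, hi⟩ ⟨j, hj⟩
    rcases h i j with h1 | h1
    · refine ⟨i, ?_⟩
      apply (hi.union ((h1 n).union hj)).subset
      rintro x ⟨hx, hxy⟩
      by_cases h2 : x ∈ X
      · right
        by_cases h3 : x ∈ (a j).1 n
        · right
          exact ⟨h3, fun hy => hxy ⟨h2, hy⟩⟩
        · left; exact ⟨hx, h3⟩
      · left; exact ⟨hx, h2⟩
    · refine ⟨j, ?_⟩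
      apply (hj.union ((h1 n).union hi)).subset
      rintro x ⟨hx, hxy⟩
      by_cases h2 : x ∈ Y
      · right
        by_cases h3 : x ∈ (a i).1 n
        · right
          exact ⟨h3, fun hy => hxy ⟨hy, h2⟩⟩
        · left; exact ⟨hx, h3⟩
      · left; exact ⟨hx, h2⟩

theorem mem_F {a : Idx → Cnd} {h : ∀ i j, LE' (a i) (a j) ∨ LE' (a j) (a i)} {n : ℕ} {X : Set ℕ} :
    X ∈ F a h n ↔ ∃ i, ((a i).1 n \ X).Finite := Iff.rfl

theorem F_mem (a : Idx → Cnd) (h : ∀ i j, LE' (a i) (a j) ∨ LE' (a j) (a i)) (n : ℕ) (i : Idx) :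
    (a i).1 n ∈ F a h n := ⟨i, by simp⟩

/-- CH: there is a sequence of pairwise non-isomorphic selective ultrafilters. -/
theorem exists_selective_seq (hCH : Cardinal.continuum.{0} = Cardinal.aleph.{0} 1) :
    ∃ V : ℕ → Ultrafilter ℕ, (∀ n, IsSel (V n)) ∧ ∀ n m, n ≠ m → ¬ Iso (V n) (V m) := by
  classical
  obtain ⟨a, hD, h⟩ := exists_generic hCH
  have hult : ∀ n X, Xᶜ ∉ F a h n ↔ X ∈ F a h n := by
    intro n X
    constructor
    · intro hX
      let f : ℕ → ℕ := fun x => if x ∈ X then 1 else 0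
      have h1 := (hD (f, id, n, n)).1
      have h2 := F_mem a h n (f, id, n, n)
      dsimp only at h1
      rcases h1 with ⟨c, hc⟩ | hinj
      · by_cases h0 : c = 1
        · apply Filter.mem_of_superset h2
          intro x hx
          have := hc x hx
          by_contra hxX
          simp only [f, if_neg hxX] at this
          omega
        · exfalso
          apply hX
          apply Filter.mem_of_superset h2
          intro x hx hxX
          have := hc x hx
          simp only [f, if_pos hxX] at this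
          omega
      · exfalso
        apply (a (f, id, n, n)).2 n
        apply Set.Finite.of_finite_image _ hinj
        apply (Set.finite_Iic 1).subset
        rintro _ ⟨x, -, rfl⟩
        simp only [f, mem_Iic]
        split_ifs <;> omega
    · intro hX hX'
      obtain ⟨i, hi⟩ := Filter.inter_mem hX hX'
      rw [Set.inter_compl_self, Set.sdiff_empty] at hi
      exact (a i).2 n hi
  let V : ℕ → Ultrafilter ℕ := fun n => Ultrafilter.ofComplNotMemIff (F a h n) (hult n)
  have hVmem : ∀ n X, X ∈ V n ↔ X ∈ F a h n := fun n X => Iff.rfl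
  have hNP : ∀ n, NP (V n) := by
    intro n k hk
    rw [hVmem] at hk
    obtain ⟨i, hi⟩ := hk
    apply (a i).2 n
    apply (hi.union (Set.finite_singleton k)).subset
    intro x hx
    by_cases hxk : x = k
    · right; exact hxk
    · left; exact ⟨hx, hxk⟩
  refine ⟨V, fun n => ⟨hNP n, fun f => ?_⟩, fun n m hnm => ?_⟩
  · have h1 := (hD (f, id, n, n)).1
    have h2 := F_mem a h n (f, id, n, n)
    dsimp only at h1
    rcases h1 with ⟨c, hc⟩ | hinj
    · exact Or.inl ⟨_, h2, c, hc⟩
    · exact Or.inr ⟨_, h2, hinj⟩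
  · rintro ⟨e, he⟩
    have h1 := (hD (e, id, n, m)).2 hnm
      (fun k => (Set.finite_singleton (e.symm k)).subset (by
        rintro x hx
        simp only [mem_ofPred_eq] at hx
        simp only [mem_singleton_iff]
        rw [← hx, Equiv.symm_apply_apply]))
      (fun k => (Set.finite_singleton k).subset (by
        rintro x hx
        simpa using hx))
    dsimp only at h1
    simp only [id_eq, image_id'] at h1
    have h2 : (a (e, id, n, m)).1 n ∈ V n := F_mem a h n _
    have h3 : (a (e, id, n, m)).1 m ∈ V m := F_mem a h m _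
    have h4 : e '' (a (e, id, n, m)).1 n ∈ V m := by
      rw [← he]
      have : e ⁻¹' (e '' (a (e, id, n, m)).1 n) ∈ V n :=
        Filter.mem_of_superset h2 (Set.subset_preimage_image e _)
      exact this
    have h5 := Filter.inter_mem h4 h3
    rw [Set.disjoint_iff_inter_eq_empty.1 h1] at h5
    exact emp _ h5

end Pool.Agent.W352.Qp
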