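import Pool.Agent.W352.Qp.Basic

set_option autoImplicit false

namespace Pool.Agent.W352.Qp

open Set

theorem eq_of_le {V V' : Ultrafilter ℕ} (h : ∀ C ∈ V', C ∈ V) : V = V' := by
  apply Ultrafilter.coe_injective
  have : (V : Filter ℕ) ≤ V' := fun C hC => h C hC
  exact Ultrafilter.unique V' this

theorem exists_coinf (V : Ultrafilter ℕ) : ∃ E ∈ V, (Eᶜ).Infinite := by
  by_cases h : {n : ℕ | Even n} ∈ V
  · refine ⟨_, h, ?_⟩
    apply Set.infinite_of_injective_forall_mem (f := fun n : ℕ => 2 * n + 1)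
    · intro a b hab
      simp only [Nat.add_right_cancel_iff] at hab
      omega
    · intro n
      simp only [mem_compl_iff, mem_ofPred_eq, Nat.not_even_iff_odd]
      exact odd_two_mul_add_one n
  · refine ⟨_, Ultrafilter.compl_mem_iff_notMem.2 h, ?_⟩
    rw [compl_compl]
    apply Set.infinite_of_injective_forall_mem (f := fun n : ℕ => 2 * n)
    · intro a b hab
      simp only at hab
      omega
    · intro n
      simp

theorem iso_of_map_eq {V V' : Ultrafilter ℕ} {f g : ℕ → ℕ} {A B : Set ℕ} (hA : A ∈ V) (hB : B ∈ V')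
    (hf : InjOn f A) (hg : InjOn g B) (h : V.map f = V'.map g) : Iso V V' := by
  classical
  have hgB : f ⁻¹' (g '' B) ∈ V := by
    have h1 : g '' B ∈ V'.map g := by
      have : g ⁻¹' (g '' B) ∈ V' := Filter.mem_of_superset hB (Set.subset_preimage_image g B)
      exact this
    rw [← h] at h1
    exact h1
  let k : ℕ → ℕ := fun x => Function.invFunOn g B (f x)
  have hk : ∀ x ∈ f ⁻¹' (g '' B), k x ∈ B ∧ g (k x) = f x := fun x hx =>
    Function.invFunOn_pos (f := g) (s := B) hx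
  have hmapk : V.map k = V' := by
    apply eq_of_le
    intro C hC
    have h2 : g '' (C ∩ B) ∈ V.map f := by
      rw [h]
      have : g ⁻¹' (g '' (C ∩ B)) ∈ V' :=
        Filter.mem_of_superset (Filter.inter_mem hC hB) (Set.subset_preimage_image g _)
      exact this
    have h3 : f ⁻¹' (g '' (C ∩ B)) ∈ V := h2
    have h4 : k ⁻¹' C ∈ V := by
      apply Filter.mem_of_superset (Filter.inter_mem h3 hgB)
      rintro x ⟨⟨c, ⟨hc, hcB⟩, hgc⟩, hx⟩
      obtain ⟨h5, h6⟩ := hk x hx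
      have : k x = c := hg h5 hcB (h6.trans hgc.symm)
      simp only [mem_preimage]
      rw [this]; exact hc
    exact h4
  obtain ⟨E, hE, hEi⟩ := exists_coinf V
  obtain ⟨E', hE', hEi'⟩ := exists_coinf V'
  have hkE' : k ⁻¹' E' ∈ V := by
    have : E' ∈ V.map k := by rw [hmapk]; exact hE'
    exact this
  let A2 : Set ℕ := A ∩ f ⁻¹' (g '' B) ∩ E ∩ k ⁻¹' E'
  have hA2 : A2 ∈ V := Filter.inter_mem (Filter.inter_mem (Filter.inter_mem hA hgB) hE) hkE'
  have hA2inf : (A2ᶜ).Infinite := hEi.mono (compl_subset_compl.2 (fun x hx => hx.1.2))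
  have hkinj : InjOn k A2 := by
    intro x hx y hy hxy
    apply hf hx.1.1.1 hy.1.1.1
    rw [← (hk x hx.1.1.2).2, ← (hk y hy.1.1.2).2, hxy]
  have hkA2inf : ((k '' A2)ᶜ).Infinite := by
    apply hEi'.mono
    apply compl_subset_compl.2
    rintro _ ⟨x, hx, rfl⟩
    exact hx.2
  have : Infinite ↥(A2ᶜ) := hA2inf.to_subtype
  have : Infinite ↥((k '' A2)ᶜ) := hkA2inf.to_subtype
  obtain ⟨e2⟩ := nonempty_equiv_of_countable (α := ↥(A2ᶜ)) (β := ↥((k '' A2)ᶜ))
  let e : ℕ ≃ ℕ := (Equiv.Set.sumCompl A2).symm.trans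
    ((Equiv.sumCongr (Equiv.Set.imageOfInjOn k A2 hkinj) e2).trans (Equiv.Set.sumCompl (k '' A2)))
  have he : ∀ x ∈ A2, e x = k x := by
    intro x hx
    simp only [e, Equiv.trans_apply]
    rw [Equiv.Set.sumCompl_symm_apply_of_mem hx]
    simp only [Equiv.sumCongr_apply, Sum.map_inl, Equiv.Set.sumCompl_apply_inl]
    rfl
  refine ⟨e, ?_⟩
  rw [← hmapk]
  apply eq_of_le
  intro C hC
  have h5 : k ⁻¹' C ∈ V := hC
  have h6 : e ⁻¹' C ∈ V := by
    apply Filter.mem_of_superset (Filter.inter_mem h5 hA2)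
    rintro x ⟨hx1, hx2⟩
    simp only [mem_preimage]
    rw [he x hx2]
    exact hx1
  exact h6

theorem hne_of_nonIso {Y : ℕ → Ultrafilter ℕ} (hY : ∀ n, IsSel (Y n))
    (hi : ∀ n m, n ≠ m → ¬ Iso (Y n) (Y m)) :
    ∀ n m, n ≠ m → ∀ f g : ℕ → ℕ, (∀ k, {x | f x = k}.Finite) → (∀ k, {x | g x = k}.Finite) →
      (Y n).map f ≠ (Y m).map g := by
  intro n m hnm f g hf hg h
  obtain ⟨A, hA, hA'⟩ := (hY n).isQ.2 f hf
  obtain ⟨B, hB, hB'⟩ := (hY m).isQ.2 g hg
  exact hi n m hnm (iso_of_map_eq hA hB hA' hB' h)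

/-- ZFC: a Fubini limit of pairwise non-isomorphic selective ultrafilters along a nonprincipal
ultrafilter is a q-point which is not selective. -/
theorem lim_isQ_of_nonIso {W : Ultrafilter ℕ} {Y : ℕ → Ultrafilter ℕ} (hW : NP W)
    (hY : ∀ n, IsSel (Y n)) (hi : ∀ n m, n ≠ m → ¬ Iso (Y n) (Y m)) :
    IsQ (lim W Y) ∧ ¬ IsSel (lim W Y) :=
  ⟨lim_isQ hW hY (hne_of_nonIso hY hi), lim_not_sel hW (fun n => (hY n).1)⟩

end Pool.Agent.W352.Qp
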